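import Pool.Agent.TH499.TF.Minor

set_option autoImplicit false

/-! # 3-edge-colouring bridgeless subcubic graphs of treewidth at most three

The condition on minors holds for every planar graph. -/

namespace Pool.Agent.Results.MP_028d9b_co.TreewidthThree

open Finset

/-- the indices of the branch sets: the two-element subsets of `{0, 1, 2, 3, 4}` other than
`{0, 1}` -/
abbrev Idx := {s : Finset (Fin 5) // s.card = 2 ∧ s ≠ {0, 1}}

/-- the Petersen graph without one vertex is a minor of `G`: there are disjoint connected sets of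
vertices, one for each two-element subset of `{0, 1, 2, 3, 4}` other than `{0, 1}`, and the sets
for disjoint subsets are adjacent -/
def HasPetersenMinusVertexMinor {V : Type} (G : SimpleGraph V) : Prop :=
  ∃ B : Idx → Set V,
    (∀ i, (G.induce (B i)).Connected) ∧
    (∀ i j, i ≠ j → Disjoint (B i) (B j)) ∧
    (∀ i j : Idx, Disjoint i.1 j.1 → ∃ x ∈ B i, ∃ y ∈ B j, G.Adj x y)

/-- tree decomposition of `G`, with bags `bag i` for the nodes `i` of the tree `T` -/
def IsTreeDecomposition {V ι : Type} (G : SimpleGraph V) (T : SimpleGraph ι)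
    (bag : ι → Finset V) : Prop :=
  T.IsTree ∧ (∀ v, ∃ i, v ∈ bag i) ∧ (∀ u v, G.Adj u v → ∃ i, u ∈ bag i ∧ v ∈ bag i) ∧
    ∀ (i j : ι) (p : T.Walk i j), p.IsPath → ∀ k ∈ p.support, ∀ v, v ∈ bag i → v ∈ bag j →
      v ∈ bag k

/-- the treewidth of `G` is at most `k` -/
def TreewidthLE {V : Type} (G : SimpleGraph V) (k : ℕ) : Prop :=
  ∃ (ι : Type) (_ : Fintype ι) (T : SimpleGraph ι) (bag : ι → Finset V),
    IsTreeDecomposition G T bag ∧ ∀ i, (bag i).card ≤ k + 1

/-- **Theorem.** Let `G` be a connected bridgeless graph of maximum degree at most three and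
treewidth at most three, with two vertices of degree two, and suppose that the Petersen graph
without one vertex is not a minor of `G`. Then `G` has a proper edge-colouring with three
colours. -/
theorem result (V : Type) [Fintype V] (G : SimpleGraph V) [DecidableRel G.Adj]
    (hconn : G.Connected) (hdeg : ∀ v, G.degree v ≤ 3) (hbr : ∀ e, ¬ G.IsBridge e)
    (h2 : ∃ u v, u ≠ v ∧ G.degree u = 2 ∧ G.degree v = 2)
    (hP : ¬ HasPetersenMinusVertexMinor G) (hT : TreewidthLE G 3) :
    ∃ c : Sym2 V → Fin 3, ∀ u v w, G.Adj u v → G.Adj u w → v ≠ w →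
      c s(u, v) ≠ c s(u, w) := by
  classical
  -- the graph with a new vertex adjacent to all vertices of degree two
  let src : G.edgeSet ⊕ {v : V // G.degree v = 2} → Option V :=
    Sum.elim (fun e => some (Quot.out e.1).1) (fun _ => none)
  let dst : G.edgeSet ⊕ {v : V // G.degree v = 2} → Option V :=
    Sum.elim (fun e => some (Quot.out e.1).2) (fun w => some w.1)
  have hl : ∀ e : G.edgeSet, ∃ p q, G.Adj p q ∧ e.1 = s(p, q) ∧ src (Sum.inl e) = some p ∧
      dst (Sum.inl e) = some q := by
    intro e
    have h1 : e.1 = s((Quot.out e.1).1, (Quot.out e.1).2) := (Quot.out_eq e.1).symm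
    refine ⟨_, _, ?_, h1, rfl, rfl⟩
    have h3 := e.2
    rw [h1] at h3
    exact h3
  have hr1 : ∀ w, src (Sum.inr w) = none := fun _ => rfl
  have hr2 : ∀ w, dst (Sum.inr w) = some w.1 := fun _ => rfl
  -- walks do not leave a set without outgoing edges
  have hstay : ∀ (H : SimpleGraph V) (Z : V → Prop), (∀ x y, H.Adj x y → (Z x ↔ Z y)) →
      ∀ x y, H.Reachable x y → (Z x ↔ Z y) := by
    rintro H Z hZ x y ⟨p⟩
    induction p with
    | nil => exact Iff.rfl
    | cons hadj _ ih => exact (hZ _ _ hadj).trans ih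
  -- no cut with one edge
  have hcut : ∀ Y, (TH499.TF.dlt src dst Y).card ≠ 1 := by
    intro Y hY
    obtain ⟨e, he⟩ := card_eq_one.mp hY
    have hm : e ∈ TH499.TF.dlt src dst Y := by rw [he]; exact mem_singleton_self _
    rw [TH499.TF.mem_dlt] at hm
    have hadj : ∀ x y, G.Adj x y → (∀ p q, e = Sum.inl p → p.1 = q → q ≠ s(x, y)) →
        (some x ∈ Y ↔ some y ∈ Y) := by
      intro x y hxy hne
      obtain ⟨p, q, _, h3, h4, h5⟩ := hl ⟨s(x, y), hxy⟩
      have hn : (Sum.inl ⟨s(x, y), hxy⟩ : G.edgeSet ⊕ {v : V // G.degree v = 2}) ∉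
          TH499.TF.dlt src dst Y := by
        rw [he, mem_singleton]
        intro h
        exact hne _ _ h.symm rfl rfl
      rw [TH499.TF.mem_dlt, not_not, h4, h5] at hn
      have h6 : s(x, y) = s(p, q) := h3
      rw [Sym2.eq_iff] at h6
      rcases h6 with ⟨rfl, rfl⟩ | ⟨rfl, rfl⟩
      · exact hn
      · exact hn.symm
    rcases e with e | w
    · obtain ⟨p, q, hpq, h3, h4, h5⟩ := hl e
      rw [h4, h5] at hm
      apply hbr e.1
      rw [h3, SimpleGraph.isBridge_iff]
      intro hr
      apply hm
      refine hstay _ (fun x => some x ∈ Y) ?_ _ _ hr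
      intro x y hxy
      rw [SimpleGraph.deleteEdges_adj] at hxy
      refine hadj x y hxy.1 ?_
      rintro p' q' hp' rfl h
      have h6 : e = p' := Sum.inl_injective hp'
      subst h6
      apply hxy.2
      rw [Set.mem_singleton_iff, ← h, h3]
    · rw [hr1, hr2] at hm
      have hall : ∀ x y, (some x ∈ Y ↔ some y ∈ Y) := fun x y =>
        hstay G (fun x => some x ∈ Y) (fun x y hxy => hadj x y hxy (fun p q h => by
          exact absurd h (by simp))) _ _ (hconn.preconnected x y)
      obtain ⟨u, v, huv, hu, hv⟩ := h2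
      have key : ∀ x : {v : V // G.degree v = 2}, x = w := by
        intro x
        have h6 : (Sum.inr x : G.edgeSet ⊕ {v : V // G.degree v = 2}) ∈
            TH499.TF.dlt src dst Y := by
          rw [TH499.TF.mem_dlt, hr1, hr2, hall x.1 w.1]
          exact hm
        rw [he, mem_singleton] at h6
        exact Sum.inr_injective h6
      exact huv (congrArg Subtype.val ((key ⟨u, hu⟩).trans (key ⟨v, hv⟩).symm))
  -- no Petersen minor
  have hPM : ¬ TH499.TF.PM src dst := by
    rintro ⟨S, h1, hd, h3⟩
    apply hP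
    obtain ⟨i0, hi0⟩ : ∃ i0 : TH499.TF.Pr, ∀ i, none ∈ S i → i = i0 := by
      by_cases hex : ∃ i, none ∈ S i
      · obtain ⟨i, hi⟩ := hex
        refine ⟨i, fun j hj => ?_⟩
        by_contra hij
        exact disjoint_left.mp (hd j i hij) hj hi
      · exact ⟨⟨{0, 1}, rfl⟩, fun i hi => absurd ⟨i, hi⟩ hex⟩
    obtain ⟨σ, hσ⟩ : ∃ σ : Equiv.Perm (Fin 5), i0.1 = ({0, 1} : Finset (Fin 5)).map
        σ.toEmbedding := by
      obtain ⟨a, b, hab, hi⟩ := card_eq_two.mp i0.2
      refine ⟨(Equiv.swap 1 (Equiv.swap 0 a b)).trans (Equiv.swap 0 a), ?_⟩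
      rw [hi]
      clear hi
      clear * - hab
      revert a b
      decide
    let t : Idx → TH499.TF.Pr := fun s => ⟨s.1.map σ.toEmbedding, by rw [card_map]; exact s.2.1⟩
    have ht0 : ∀ s, t s ≠ i0 := by
      intro s h
      apply s.2.2
      have h4 : s.1.map σ.toEmbedding = ({0, 1} : Finset (Fin 5)).map σ.toEmbedding := by
        rw [← hσ, ← h]
      exact map_injective _ h4
    have htinj : ∀ s s', s ≠ s' → t s ≠ t s' := by
      intro s s' h h4
      apply h
      apply Subtype.ext
      exact map_injective σ.toEmbedding (congrArg Subtype.val h4)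
    have hnone : ∀ s, none ∉ S (t s) := fun s h => ht0 s (hi0 _ h)
    have hjn : ∀ e x y, TH499.TF.Joins src dst e (some x) (some y) → G.Adj x y := by
      intro e x y hj
      rcases e with e | w
      · obtain ⟨p, q, hpq, _, h4, h5⟩ := hl e
        unfold TH499.TF.Joins at hj
        rw [h4, h5] at hj
        rcases hj with ⟨h6, h7⟩ | ⟨h6, h7⟩
        · rw [← Option.some_injective _ h6, ← Option.some_injective _ h7]; exact hpq
        · rw [← Option.some_injective _ h6, ← Option.some_injective _ h7]; exact hpq.symm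
      · unfold TH499.TF.Joins at hj
        rw [hr1] at hj
        rcases hj with ⟨h6, _⟩ | ⟨h6, _⟩ <;> exact absurd h6 (by simp)
    have hne : ∀ i, (S i).Nonempty := by
      intro i
      obtain ⟨j, hj⟩ : ∃ j : {s : Finset (Fin 5) // s.card = 2}, Disjoint i.1 j.1 := by
        revert i; decide
      obtain ⟨e, x, y, hx, _⟩ := h3 i j hj
      exact ⟨x, hx⟩
    refine ⟨fun s => {x | some x ∈ S (t s)}, ?_, ?_, ?_⟩
    · intro s
      obtain ⟨x0', hx0'⟩ := hne (t s)
      obtain ⟨x0, rfl⟩ : ∃ x0, x0' = some x0 := by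
        cases x0' with
        | none => exact absurd hx0' (hnone s)
        | some x0 => exact ⟨x0, rfl⟩
      rw [SimpleGraph.connected_iff_exists_forall_reachable]
      refine ⟨⟨x0, hx0'⟩, ?_⟩
      by_contra hcon
      push Not at hcon
      obtain ⟨⟨y0, hy0⟩, hy1⟩ := hcon
      obtain ⟨e, a', b', ha, hb, hbA, hj⟩ := h1 (t s)
        ((S (t s)).filter (fun z => ∃ x, z = some x ∧ ∃ h : x ∈ {x | some x ∈ S (t s)},
          (G.induce {x | some x ∈ S (t s)}).Reachable ⟨x0, hx0'⟩ ⟨x, h⟩))
        (filter_subset _ _)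
        ⟨some x0, mem_filter.mpr ⟨hx0', x0, rfl, hx0', SimpleGraph.Reachable.refl _⟩⟩
        (fun h => by
          have h4 : some y0 ∈ (S (t s)).filter (fun z => ∃ x, z = some x ∧
              ∃ h : x ∈ {x | some x ∈ S (t s)},
              (G.induce {x | some x ∈ S (t s)}).Reachable ⟨x0, hx0'⟩ ⟨x, h⟩) := by
            rw [h]; exact hy0
          obtain ⟨_, y1, h5, h6, h7⟩ := mem_filter.mp h4
          have h8 : y0 = y1 := Option.some_injective _ h5
          subst h8
          exact hy1 h7)
      obtain ⟨ha1, a, rfl, ha2, ha3⟩ := mem_filter.mp ha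
      obtain ⟨b, rfl⟩ : ∃ b, b' = some b := by
        cases b' with
        | none => exact absurd hb (hnone s)
        | some b => exact ⟨b, rfl⟩
      apply hbA
      refine mem_filter.mpr ⟨hb, b, rfl, hb, ha3.trans ?_⟩
      apply SimpleGraph.Adj.reachable
      exact hjn e a b hj
    · intro s s' hss
      rw [Set.disjoint_left]
      intro x hx hx'
      exact disjoint_left.mp (hd _ _ (htinj s s' hss)) hx hx'
    · intro s s' hss
      obtain ⟨e, x', y', hx, hy, hj⟩ := h3 (t s) (t s') ((disjoint_map σ.toEmbedding).mpr hss)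
      obtain ⟨x, rfl⟩ : ∃ x, x' = some x := by
        cases x' with
        | none => exact absurd hx (hnone s)
        | some x => exact ⟨x, rfl⟩
      obtain ⟨y, rfl⟩ : ∃ y, y' = some y := by
        cases y' with
        | none => exact absurd hy (hnone s')
        | some y => exact ⟨y, rfl⟩
      exact ⟨x, hx, y, hy, hjn e x y hj⟩
  -- tree decomposition
  obtain ⟨ι, _, T, bag, ⟨t1, t0, t2, t3⟩, t4⟩ := hT
  have hTD : TH499.TF.HasTD 5 src dst := by
    refine TH499.TF.HasTD.of_tree (C := fun i => insertNone (bag i)) t1 ?_ ?_ ?_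
    · intro i j p hp k hk v hi hj
      rw [mem_insertNone] at hi hj ⊢
      intro a ha
      exact t3 i j p hp k hk a (hi a ha) (hj a ha)
    · rintro (e | w)
      · obtain ⟨p, q, hpq, _, h4, h5⟩ := hl e
        obtain ⟨i, hi1, hi2⟩ := t2 p q hpq
        refine ⟨i, ?_, ?_⟩
        · rw [h4]; exact some_mem_insertNone.mpr hi1
        · rw [h5]; exact some_mem_insertNone.mpr hi2
      · obtain ⟨i, hi⟩ := t0 w.1
        refine ⟨i, ?_, ?_⟩
        · rw [hr1]; exact none_mem_insertNone
        · rw [hr2]; exact some_mem_insertNone.mpr hi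
    · intro i
      rw [card_insertNone]
      have := t4 i
      omega
  obtain ⟨f, hf, hd⟩ := TH499.TF.cls_nz _ src dst rfl ⟨hTD, hPM⟩ hcut
  -- the colouring
  let κ : TH499.TF.K → Fin 3 := fun a => if a = (1, 0) then 0 else if a = (0, 1) then 1 else 2
  have hκ : ∀ a b : TH499.TF.K, a ≠ 0 → b ≠ 0 → κ a = κ b → a = b := by decide
  refine ⟨fun e => if h : e ∈ G.edgeSet then κ (f (Sum.inl ⟨e, h⟩)) else 0, ?_⟩
  intro u v w huv huw hvw hc
  have huv' : s(u, v) ∈ G.edgeSet := huv
  have huw' : s(u, w) ∈ G.edgeSet := huw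
  simp only [dif_pos huv', dif_pos huw'] at hc
  have heq := hκ _ _ (hf _) (hf _) hc
  -- the edges at `u`
  have hsum : ∑ e ∈ TH499.TF.dlt src dst {some u}, f e = 0 := by
    rw [← TH499.TF.sum_dv, sum_singleton]
    exact hd _
  have hml : ∀ e : G.edgeSet, (Sum.inl e : G.edgeSet ⊕ {v : V // G.degree v = 2}) ∈
      TH499.TF.dlt src dst {some u} ↔ ∃ z, G.Adj u z ∧ e.1 = s(u, z) := by
    intro e
    obtain ⟨p, q, hpq, h3, h4, h5⟩ := hl e
    rw [TH499.TF.mem_dlt, h4, h5, mem_singleton, mem_singleton, Option.some_inj,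
      Option.some_inj, h3]
    constructor
    · intro h
      by_cases hp : p = u
      · subst hp
        exact ⟨q, hpq, rfl⟩
      · have hq : q = u := by
          by_contra hq
          exact h ⟨fun h => absurd h hp, fun h => absurd h hq⟩
        subst hq
        exact ⟨p, hpq.symm, Sym2.eq_swap⟩
    · rintro ⟨z, hz, hez⟩ hiff
      rw [Sym2.eq_iff] at hez
      rcases hez with ⟨rfl, rfl⟩ | ⟨rfl, rfl⟩
      · exact hpq.ne (hiff.mp rfl).symm
      · exact hpq.ne (hiff.mpr rfl)
  have hmr : ∀ x : {v : V // G.degree v = 2}, (Sum.inr x : G.edgeSet ⊕ {v : V // G.degree v = 2}) ∈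
      TH499.TF.dlt src dst {some u} ↔ x.1 = u := by
    intro x
    rw [TH499.TF.mem_dlt, hr1, hr2, mem_singleton, mem_singleton, Option.some_inj]
    simp
  have hneq : ∀ z z', z ≠ z' → ∀ (h : s(u, z) ∈ G.edgeSet) (h' : s(u, z') ∈ G.edgeSet),
      (Sum.inl ⟨s(u, z), h⟩ : G.edgeSet ⊕ {v : V // G.degree v = 2}) ≠
        Sum.inl ⟨s(u, z'), h'⟩ := by
    intro z z' hz h h' h6
    have h7 : s(u, z) = s(u, z') := congrArg Subtype.val (Sum.inl_injective h6)
    rw [Sym2.eq_iff] at h7
    rcases h7 with ⟨_, h8⟩ | ⟨h8, h9⟩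
    · exact hz h8
    · exact hz (h9.trans h8)
  have hsub : ({v, w} : Finset V) ⊆ G.neighborFinset u := by
    intro z hz
    rw [mem_insert, mem_singleton] at hz
    rw [SimpleGraph.mem_neighborFinset]
    rcases hz with rfl | rfl
    · exact huv
    · exact huw
  have hcard : 2 ≤ G.degree u := by
    rw [← SimpleGraph.card_neighborFinset_eq_degree, ← card_pair hvw]
    exact card_le_card hsub
  rcases Nat.lt_or_ge (G.degree u) 3 with h3 | h3
  · have hdu : G.degree u = 2 := by omega
    have hN : G.neighborFinset u = {v, w} := by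
      symm
      apply eq_of_subset_of_card_le hsub
      rw [card_pair hvw, SimpleGraph.card_neighborFinset_eq_degree, hdu]
    have hD : TH499.TF.dlt src dst {some u} = {Sum.inl ⟨s(u, v), huv'⟩, Sum.inl ⟨s(u, w), huw'⟩,
        Sum.inr ⟨u, hdu⟩} := by
      ext e
      rcases e with e | x
      · rw [hml, mem_insert, mem_insert, mem_singleton]
        constructor
        · rintro ⟨z, hz, hez⟩
          rw [← SimpleGraph.mem_neighborFinset, hN, mem_insert, mem_singleton] at hz
          rcases hz with rfl | rfl
          · exact Or.inl (congrArg Sum.inl (Subtype.ext hez))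
          · exact Or.inr (Or.inl (congrArg Sum.inl (Subtype.ext hez)))
        · rintro (h | h | h)
          · exact ⟨v, huv, congrArg Subtype.val (Sum.inl_injective h)⟩
          · exact ⟨w, huw, congrArg Subtype.val (Sum.inl_injective h)⟩
          · exact absurd h (by simp)
      · rw [hmr, mem_insert, mem_insert, mem_singleton]
        constructor
        · intro h
          exact Or.inr (Or.inr (congrArg Sum.inr (Subtype.ext h)))
        · rintro (h | h | h)
          · exact absurd h (by simp)
          · exact absurd h (by simp)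
          · exact congrArg Subtype.val (Sum.inr_injective h)
    rw [hD, sum_insert, sum_insert, sum_singleton, ← add_assoc, heq, TH499.TF.K_add_self,
      zero_add] at hsum
    · exact hf _ hsum
    · rw [mem_singleton]; simp
    · rw [mem_insert, mem_singleton]
      rintro (h | h)
      · exact hneq v w hvw _ _ h
      · exact absurd h (by simp)
  · have hdu : G.degree u = 3 := le_antisymm (hdeg u) h3
    obtain ⟨z, hz, hzn⟩ : ∃ z ∈ G.neighborFinset u, z ∉ ({v, w} : Finset V) := by
      by_contra hcon
      push Not at hcon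
      have h7 := card_le_card (show G.neighborFinset u ⊆ {v, w} from hcon)
      rw [card_pair hvw, SimpleGraph.card_neighborFinset_eq_degree, hdu] at h7
      omega
    rw [mem_insert, mem_singleton, not_or] at hzn
    have hcard3 : ({v, w, z} : Finset V).card = 3 := by
      rw [card_eq_three]
      exact ⟨v, w, z, hvw, fun h => hzn.1 h.symm, fun h => hzn.2 h.symm, rfl⟩
    have hN : G.neighborFinset u = {v, w, z} := by
      symm
      apply eq_of_subset_of_card_le
      · intro y hy
        rw [mem_insert, mem_insert, mem_singleton] at hy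
        rcases hy with rfl | rfl | rfl
        · exact hsub (mem_insert_self _ _)
        · exact hsub (mem_insert_of_mem (mem_singleton_self _))
        · exact hz
      · rw [hcard3, SimpleGraph.card_neighborFinset_eq_degree, hdu]
    have huz : G.Adj u z := by rw [← SimpleGraph.mem_neighborFinset]; exact hz
    have huz' : s(u, z) ∈ G.edgeSet := huz
    have hD : TH499.TF.dlt src dst {some u} = {Sum.inl ⟨s(u, v), huv'⟩, Sum.inl ⟨s(u, w), huw'⟩,
        Sum.inl ⟨s(u, z), huz'⟩} := by
      ext e
      rcases e with e | x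
      · rw [hml, mem_insert, mem_insert, mem_singleton]
        constructor
        · rintro ⟨y, hy, hey⟩
          rw [← SimpleGraph.mem_neighborFinset, hN, mem_insert, mem_insert, mem_singleton] at hy
          rcases hy with rfl | rfl | rfl
          · exact Or.inl (congrArg Sum.inl (Subtype.ext hey))
          · exact Or.inr (Or.inl (congrArg Sum.inl (Subtype.ext hey)))
          · exact Or.inr (Or.inr (congrArg Sum.inl (Subtype.ext hey)))
        · rintro (h | h | h)
          · exact ⟨v, huv, congrArg Subtype.val (Sum.inl_injective h)⟩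
          · exact ⟨w, huw, congrArg Subtype.val (Sum.inl_injective h)⟩
          · exact ⟨z, huz, congrArg Subtype.val (Sum.inl_injective h)⟩
      · rw [hmr, mem_insert, mem_insert, mem_singleton]
        constructor
        · intro h
          have h7 := x.2
          rw [h, hdu] at h7
          omega
        · rintro (h | h | h) <;> exact absurd h (by simp)
    rw [hD, sum_insert, sum_insert, sum_singleton, ← add_assoc, heq, TH499.TF.K_add_self,
      zero_add] at hsum
    · exact hf _ hsum
    · rw [mem_singleton]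
      exact hneq w z (fun h => hzn.2 h.symm) _ _
    · rw [mem_insert, mem_singleton]
      rintro (h | h)
      · exact hneq v w hvw _ _ h
      · exact hneq v z (fun h => hzn.1 h.symm) _ _ h

end Pool.Agent.Results.MP_028d9b_co.TreewidthThree
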